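import Mathlib

set_option autoImplicit false

/-!
# A level-transitive automaton semigroup whose dual semigroup is not free
-/

namespace Pool.Agent.Results.MP_407f73_al.TransitiveNotFree

/-- A Mealy automaton with states `Q` and letters `A`. -/
structure Mealy (Q A : Type) where
  /-- the transition function -/
  delta : Q → A → Q
  /-- the output function -/
  lam : Q → A → A

/-- The action of a state on words over the alphabet:
`q ∘ (a₁ a₂ … aₙ) = λ(q, a₁) (δ(q, a₁) ∘ (a₂ … aₙ))`. -/
def Mealy.act {Q A : Type} (M : Mealy Q A) : Q → List A → List A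
  | _, [] => []
  | q, a :: w => M.lam q a :: M.act (M.delta q a) w

/-- The dual automaton: `δ'(a, q) = λ(q, a)`, `λ'(a, q) = δ(q, a)`. -/
def Mealy.dual {Q A : Type} (M : Mealy Q A) : Mealy A Q where
  delta a q := M.lam q a
  lam a q := M.delta q a

/-- The map of a state, as an element of the monoid of all maps `A* → A*` under composition. -/
def Mealy.gen {Q A : Type} (M : Mealy Q A) (q : Q) : Function.End (List A) := M.act q

/-- The automaton semigroup: the semigroup of maps `A* → A*` generated under composition by the
states. -/
def Mealy.semigroup {Q A : Type} (M : Mealy Q A) : Subsemigroup (Function.End (List A)) :=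
  Subsemigroup.closure (Set.range M.gen)

/-- Transitivity on the tree: for all `n ≥ 1` and all words `u, v` of length `n` some element of the
automaton semigroup maps `u` to `v`. -/
def Mealy.IsTransitive {Q A : Type} (M : Mealy Q A) : Prop :=
  ∀ n : ℕ, 1 ≤ n → ∀ u v : List A, u.length = n → v.length = n → ∃ s ∈ M.semigroup, s u = v

/-- The transformation induced by a word over the states: the composition of the maps of its letters
(the last letter is applied first). -/
def Mealy.word {Q A : Type} (M : Mealy Q A) : List Q → List A → List A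
  | [], s => s
  | q :: w, s => M.act q (M.word w s)

/-- The transformation induced by a word over the states, with the other order of composition
(the first letter is applied first). -/
def Mealy.wordRev {Q A : Type} (M : Mealy Q A) : List Q → List A → List A
  | [], s => s
  | q :: w, s => M.wordRev w (M.act q s)

/-- The semigroup of the automaton is freely generated by its states: distinct nonempty words over the
states induce distinct transformations. -/
def Mealy.IsFree {Q A : Type} (M : Mealy Q A) : Prop :=
  ∀ u v : List Q, u ≠ [] → v ≠ [] → M.word u = M.word v → u = v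

/-- The same with the other order of composition. -/
def Mealy.IsFreeRev {Q A : Type} (M : Mealy Q A) : Prop :=
  ∀ u v : List Q, u ≠ [] → v ≠ [] → M.wordRev u = M.wordRev v → u = v

/-! ### The example -/

/-- The states: `e` (identity), `t`, `z`, `y`, `x`. -/
inductive St
  | e | t | z | y | x
  deriving DecidableEq

instance : Finite St :=
  Finite.of_surjective (fun i : Fin 5 => if i = 0 then St.e else if i = 1 then St.t else
    if i = 2 then St.z else if i = 3 then St.y else St.x) (by
    intro s
    cases s
    · exact ⟨0, rfl⟩
    · exact ⟨1, rfl⟩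
    · exact ⟨2, rfl⟩
    · exact ⟨3, rfl⟩
    · exact ⟨4, rfl⟩)

/-- The transition function of the example. -/
def dl : St → Bool → Bool → St
  | .e, _, _ => .e
  | .t, false, _ => .e
  | .t, true, _ => .t
  | .z, _, _ => .e
  | .y, false, _ => .y
  | .y, true, _ => .z
  | .x, _, false => .z
  | .x, _, true => .e

/-- The output function of the example. -/
def lm : St → Bool → Bool → Bool × Bool
  | .e, b, c => (b, c)
  | .t, b, c => (!b, c)
  | .z, b, c => (b, !c)
  | .y, b, c => (b, c)
  | .x, b, c => (b, c)

/-- The automaton. The letters are pairs `(b, c)`.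
`t : (0, c) ↦ (1, c) | e,  (1, c) ↦ (0, c) | t` (an odometer on the first components);
`z : (b, c) ↦ (b, c + 1) | e`;
`y : (0, c) ↦ (0, c) | y,  (1, c) ↦ (1, c) | z`;
`x : (b, 0) ↦ (b, 0) | z,  (b, 1) ↦ (b, 1) | e`. -/
def M : Mealy St (Bool × Bool) where
  delta q a := dl q a.1 a.2
  lam q a := lm q a.1 a.2

theorem act_cons (q : St) (b c : Bool) (w : List (Bool × Bool)) :
    M.act q ((b, c) :: w) = lm q b c :: M.act (dl q b c) w := rfl

theorem act_e (w : List (Bool × Bool)) : M.act .e w = w := by
  induction w with
  | nil => rfl
  | cons a w ih => rw [act_cons]; change a :: M.act .e w = _; rw [ih]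

/-- One step by `t`, `z` or `y`. -/
def Step (u v : List (Bool × Bool)) : Prop :=
  v = M.act .t u ∨ v = M.act .z u ∨ v = M.act .y u

/-- Reachability by `t`, `z`, `y`. -/
abbrev R : List (Bool × Bool) → List (Bool × Bool) → Prop := Relation.ReflTransGen Step

theorem R_t (u : List (Bool × Bool)) : R u (M.act .t u) := .single (.inl rfl)
theorem R_z (u : List (Bool × Bool)) : R u (M.act .z u) := .single (.inr (.inl rfl))
theorem R_y (u : List (Bool × Bool)) : R u (M.act .y u) := .single (.inr (.inr rfl))

theorem t_true (c : Bool) (w : List (Bool × Bool)) :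
    M.act .t ((true, c) :: w) = (false, c) :: M.act .t w := rfl

theorem t_false (c : Bool) (w : List (Bool × Bool)) :
    M.act .t ((false, c) :: w) = (true, c) :: w := by
  rw [act_cons]
  change (true, c) :: M.act .e w = _
  rw [act_e]

theorem y_true (c : Bool) (w : List (Bool × Bool)) :
    M.act .y ((true, c) :: w) = (true, c) :: M.act .z w := rfl

theorem y_false (c : Bool) (w : List (Bool × Bool)) :
    M.act .y ((false, c) :: w) = (false, c) :: M.act .y w := rfl

theorem z_cons (b c : Bool) (w : List (Bool × Bool)) :
    M.act .z ((b, c) :: w) = (b, !c) :: w := by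
  rw [act_cons]
  change (b, !c) :: M.act .e w = _
  rw [act_e]

/-- `t` keeps the second components. -/
theorem t_snd (w : List (Bool × Bool)) : (M.act .t w).map Prod.snd = w.map Prod.snd := by
  induction w with
  | nil => rfl
  | cons a w ih =>
    obtain ⟨b, c⟩ := a
    cases b
    · rw [t_false]; rfl
    · rw [t_true, List.map_cons, List.map_cons, ih]

/-- `k`-th powers of `t`. -/
theorem t_pow_cons (k : ℕ) (b c : Bool) (w : List (Bool × Bool)) :
    (M.act .t)^[2 * k] ((b, c) :: w) = (b, c) :: (M.act .t)^[k] w := by
  induction k generalizing w with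
  | zero => rfl
  | succ k ih =>
    rw [show 2 * (k + 1) = 2 * k + 1 + 1 by ring, Function.iterate_succ_apply,
      Function.iterate_succ_apply, Function.iterate_succ_apply]
    cases b
    · rw [t_false, t_true, ih]
    · rw [t_true, t_false, ih]

/-- Two words with the same second components are in the same orbit of `t`. -/
theorem t_orbit (u v : List (Bool × Bool)) (h : u.map Prod.snd = v.map Prod.snd) :
    ∃ k : ℕ, (M.act .t)^[k + 1] u = v := by
  induction u generalizing v with
  | nil =>
    have : v = [] := by simpa using h.symm
    exact ⟨0, this.symm⟩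
  | cons a u ih =>
    obtain ⟨b, c⟩ := a
    cases v with
    | nil => simp at h
    | cons a' v =>
      obtain ⟨b', c'⟩ := a'
      simp only [List.map_cons, List.cons.injEq] at h
      obtain ⟨rfl, h⟩ := h
      obtain ⟨k, hk⟩ := ih v h
      cases b <;> cases b'
      · exact ⟨2 * k + 1, by rw [show 2 * k + 1 + 1 = 2 * (k + 1) by ring, t_pow_cons, hk]⟩
      · exact ⟨2 * (k + 1), by rw [Function.iterate_succ_apply, t_false, t_pow_cons, hk]⟩
      · exact ⟨2 * k, by
          rw [Function.iterate_succ_apply, t_true, t_pow_cons, ← Function.iterate_succ_apply, hk]⟩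
      · exact ⟨2 * k + 1, by rw [show 2 * k + 1 + 1 = 2 * (k + 1) by ring, t_pow_cons, hk]⟩

theorem R_pow (k : ℕ) (u : List (Bool × Bool)) : R u ((M.act .t)^[k] u) := by
  induction k generalizing u with
  | zero => exact .refl
  | succ k ih =>
    rw [Function.iterate_succ_apply]
    exact (R_t u).trans (ih _)

theorem R_snd {u v : List (Bool × Bool)} (h : u.map Prod.snd = v.map Prod.snd) : R u v := by
  obtain ⟨k, hk⟩ := t_orbit u v h
  rw [← hk]
  exact R_pow _ u

/-- Steps below the first letter. -/
theorem R_lift {u v : List (Bool × Bool)} (b c : Bool) (h : R u v) : R ((b, c) :: u) ((b, c) :: v) := by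
  induction h with
  | refl => exact .refl
  | @tail v w _ hs ih =>
    refine ih.trans ?_
    rcases hs with rfl | rfl | rfl
    · exact R_snd (by simp [t_snd])
    · have h1 : R ((b, c) :: v) ((true, c) :: v) := R_snd rfl
      have h2 := R_y ((true, c) :: v)
      rw [y_true] at h2
      have h3 : R ((true, c) :: M.act .z v) ((b, c) :: M.act .z v) := R_snd rfl
      exact (h1.trans h2).trans h3
    · have h1 : R ((b, c) :: v) ((false, c) :: v) := R_snd rfl
      have h2 := R_y ((false, c) :: v)
      rw [y_false] at h2
      have h3 : R ((false, c) :: M.act .y v) ((b, c) :: M.act .y v) := R_snd rfl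
      exact (h1.trans h2).trans h3

/-- Transitivity on every level. -/
theorem R_all (u v : List (Bool × Bool)) (h : u.length = v.length) : R u v := by
  induction u generalizing v with
  | nil =>
    have : v = [] := by simpa using h.symm
    rw [this]
  | cons a u ih =>
    obtain ⟨b, c⟩ := a
    cases v with
    | nil => simp at h
    | cons a' v =>
      obtain ⟨b', c'⟩ := a'
      have h1 : R ((b, c) :: u) ((b, c) :: v) := R_lift b c (ih v (by simpa using h))
      have h2 : R ((b, c) :: v) ((b, c') :: v) := by
        by_cases hc : c = c'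
        · rw [hc]
        · have h3 := R_z ((b, c) :: v)
          rw [z_cons] at h3
          have h4 : (!c) = c' := by
            cases c <;> cases c' <;> simp_all
          rwa [h4] at h3
      have h3 : R ((b, c') :: v) ((b', c') :: v) := R_snd rfl
      exact (h1.trans h2).trans h3

theorem mem_gen (q : St) : M.gen q ∈ M.semigroup := Subsemigroup.subset_closure ⟨q, rfl⟩

theorem reach_of_R {u v : List (Bool × Bool)} (h : R u v) : ∃ s ∈ M.semigroup, s u = v := by
  induction h with
  | refl => exact ⟨M.gen .e, mem_gen .e, act_e u⟩
  | @tail v w _ hs ih =>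
    obtain ⟨s, hs', rfl⟩ := ih
    rcases hs with rfl | rfl | rfl
    · exact ⟨M.gen .t * s, Subsemigroup.mul_mem _ (mem_gen _) hs', rfl⟩
    · exact ⟨M.gen .z * s, Subsemigroup.mul_mem _ (mem_gen _) hs', rfl⟩
    · exact ⟨M.gen .y * s, Subsemigroup.mul_mem _ (mem_gen _) hs', rfl⟩

theorem M_transitive : M.IsTransitive := by
  intro n _ u v hu hv
  exact reach_of_R (R_all u v (hu.trans hv.symm))

/-! ### The dual -/

theorem dual_cons (b c : Bool) (q : St) (w : List St) :
    M.dual.act (b, c) (q :: w) = dl q b c :: M.dual.act (lm q b c) w := rfl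

/-- The second components are irrelevant for products of two letters. -/
theorem dual_rel (b₁ b₂ c₁ c₂ c₁' c₂' : Bool) (w : List St) :
    M.dual.act (b₂, c₂) (M.dual.act (b₁, c₁) w) = M.dual.act (b₂, c₂') (M.dual.act (b₁, c₁') w) := by
  induction w generalizing b₁ b₂ c₁ c₂ c₁' c₂' with
  | nil => rfl
  | cons q w ih =>
    have key : ∀ (q : St) (b₁ b₂ c₁ c₂ c₁' c₂' : Bool),
        dl (dl q b₁ c₁) b₂ c₂ = dl (dl q b₁ c₁') b₂ c₂' ∧
        (lm q b₁ c₁).1 = (lm q b₁ c₁').1 ∧
        (lm (dl q b₁ c₁) b₂ c₂).1 = (lm (dl q b₁ c₁') b₂ c₂').1 := by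
      intro q b₁ b₂ c₁ c₂ c₁' c₂'
      cases q <;> cases b₁ <;> cases b₂ <;> cases c₁ <;> cases c₁' <;> exact ⟨rfl, rfl, rfl⟩
    obtain ⟨k1, k2, k3⟩ := key q b₁ b₂ c₁ c₂ c₁' c₂'
    rw [dual_cons, dual_cons, dual_cons, dual_cons, k1]
    congr 1
    have e1 : lm q b₁ c₁ = ((lm q b₁ c₁).1, (lm q b₁ c₁).2) := rfl
    have e2 : lm q b₁ c₁' = ((lm q b₁ c₁').1, (lm q b₁ c₁').2) := rfl
    have e3 : lm (dl q b₁ c₁) b₂ c₂ =
      ((lm (dl q b₁ c₁) b₂ c₂).1, (lm (dl q b₁ c₁) b₂ c₂).2) := rfl
    have e4 : lm (dl q b₁ c₁') b₂ c₂' =
      ((lm (dl q b₁ c₁') b₂ c₂').1, (lm (dl q b₁ c₁') b₂ c₂').2) := rfl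
    rw [e1, e2, e3, e4, ← k2, ← k3]
    exact ih _ _ _ _ _ _

theorem dual_ne (b c c' : Bool) (h : c ≠ c') : M.dual.act (b, c) ≠ M.dual.act (b, c') := by
  intro e
  have := congrFun e [.x]
  rw [dual_cons, dual_cons] at this
  have h1 : dl .x b c = dl .x b c' := (List.cons.inj this).1
  revert h1 h
  cases b <;> cases c <;> cases c' <;> simp [dl]

/-- The maps of the four letters in the dual are pairwise distinct. -/
theorem dual_injective : Function.Injective M.dual.act := by
  rintro ⟨b, c⟩ ⟨b', c'⟩ h
  have h1 := congrFun h [.t]
  rw [dual_cons, dual_cons] at h1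
  have h2 : dl .t b c = dl .t b' c' := (List.cons.inj h1).1
  have h3 : b = b' := by
    revert h2
    cases b <;> cases b' <;> simp [dl]
  subst h3
  by_contra hne
  exact dual_ne b c c' (fun e => hne (by rw [e])) h

/-- The maps of the five states are pairwise distinct. -/
theorem act_injective : Function.Injective M.act := by
  intro q q' h
  have h1 := congrFun h [(true, false), (false, false)]
  have h2 := congrFun h [(false, false), (false, false)]
  revert h1 h2
  clear h
  cases q <;> cases q' <;> simp [Mealy.act, M, dl, lm]

theorem lam_bijective (q : St) : Function.Bijective (M.lam q) := by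
  have h : Function.Involutive (M.lam q) := by
    rintro ⟨b, c⟩
    cases q <;> cases b <;> cases c <;> rfl
  exact h.bijective

theorem mul_left_cancel' {α : Type} (x y z : FreeSemigroup α) (h : x * y = x * z) : y = z := by
  have h1 : x.tail ++ y.head :: y.tail = x.tail ++ z.head :: z.tail :=
    congrArg FreeSemigroup.tail h
  have h2 := List.append_cancel_left h1
  have h3 := List.cons.inj h2
  cases y; cases z
  simp_all

/-- There is a finite Mealy automaton `M` over an alphabet with four letters, with five states, such
that: every state permutes the letters; the maps of distinct states are distinct; the automaton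
semigroup of `M` is transitive on the tree; but the semigroup of the dual automaton is not freely
generated by the letters (for either order of composition), although distinct letters induce distinct
maps; indeed there are elements `f, g, h` of it with `f g = f h` and `g ≠ h`, so that it is not
isomorphic to any free semigroup. -/
theorem result : ∃ (Q A : Type) (_ : Finite Q) (_ : Finite A) (M : Mealy Q A),
    Nat.card Q = 5 ∧ Nat.card A = 4 ∧ (∀ q, Function.Bijective (M.lam q)) ∧
    Function.Injective M.act ∧ M.IsTransitive ∧
    ¬ M.dual.IsFree ∧ ¬ M.dual.IsFreeRev ∧ Function.Injective M.dual.act ∧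
    (∃ a b c : A, M.dual.gen a * M.dual.gen b = M.dual.gen a * M.dual.gen c ∧
      M.dual.gen b ≠ M.dual.gen c) ∧
    (∀ α : Type, ¬ Nonempty (M.dual.semigroup ≃* FreeSemigroup α)) := by
  have hgen : M.dual.gen (false, false) * M.dual.gen (false, false) =
      M.dual.gen (false, false) * M.dual.gen (false, true) := by
    funext w
    exact dual_rel _ _ _ _ _ _ w
  have hne : M.dual.gen (false, false) ≠ M.dual.gen (false, true) := dual_ne _ _ _ (by simp)
  refine ⟨St, Bool × Bool, inferInstance, inferInstance, M, ?_, ?_, lam_bijective, act_injective,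
    M_transitive, ?_, ?_, dual_injective, ⟨(false, false), (false, false), (false, true), hgen, hne⟩, ?_⟩
  · have e : St ≃ Fin 5 :=
      { toFun := fun s => match s with | .e => 0 | .t => 1 | .z => 2 | .y => 3 | .x => 4
        invFun := fun i => if i = 0 then St.e else if i = 1 then St.t else
          if i = 2 then St.z else if i = 3 then St.y else St.x
        left_inv := by intro s; cases s <;> rfl
        right_inv := by intro i; fin_cases i <;> rfl }
    rw [Nat.card_congr e, Nat.card_fin]
  · simp
  · intro h
    have := h [(false, false), (false, false)] [(false, false), (false, true)] (by simp) (by simp) (by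
      funext w
      exact dual_rel _ _ _ _ _ _ w)
    simp at this
  · intro h
    have := h [(false, false), (false, false)] [(false, true), (false, false)] (by simp) (by simp) (by
      funext w
      exact dual_rel _ _ _ _ _ _ w)
    simp at this
  · rintro α ⟨f⟩
    have m1 : ∀ a, M.dual.gen a ∈ M.dual.semigroup := fun a => Subsemigroup.subset_closure ⟨a, rfl⟩
    set g1 : M.dual.semigroup := ⟨_, m1 (false, false)⟩ with hg1
    set g2 : M.dual.semigroup := ⟨_, m1 (false, true)⟩ with hg2
    have h1 : g1 * g1 = g1 * g2 := Subtype.ext hgen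
    have h2 := congrArg f h1
    rw [map_mul, map_mul] at h2
    have h3 := f.injective (mul_left_cancel' _ _ _ h2)
    exact hne (congrArg Subtype.val h3)

end Pool.Agent.Results.MP_407f73_al.TransitiveNotFree
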